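import Pool.Agent.L7h34.BO.StmQ
import Pool.Agent.L7h34.BO.Irr

set_option autoImplicit false

/-! Project BO, second stage, part QUA. -/

namespace Pool.Agent.L7h93.BO

open Finset Polynomial Pool.Agent.H319B Pool.Agent.L7h58.BP Pool.Agent.L7h34.BO

/-- a prime divisor of an odd number modulo which 2 has order at most 2 is 3 -/
theorem prime_three (N l : ℕ) (hN : Odd N) (hl : l.Prime) (hlN : l ∣ N)
    (h : orderOf (2 : ZMod l) ≤ 2) : l = 3 ∧ ¬ orderOf (2 : ZMod l) ≤ 1 := by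
  have hl2 : l ≠ 2 := by
    rintro rfl
    exact (Nat.not_even_iff_odd.2 hN) (even_iff_two_dvd.2 hlN)
  have hf : Fact l.Prime := ⟨hl⟩
  have h20 : (2 : ZMod l) ≠ 0 := by
    intro h0
    have h1 : ((2 : ℕ) : ZMod l) = 0 := by exact_mod_cast h0
    rw [ZMod.natCast_eq_zero_iff] at h1
    exact hl2 ((Nat.prime_dvd_prime_iff_eq hl Nat.prime_two).1 h1)
  have hpos : 0 < orderOf (2 : ZMod l) := by
    rw [orderOf_pos_iff, isOfFinOrder_iff_pow_eq_one]
    exact ⟨l - 1, by have := hl.two_le; omega, ZMod.pow_card_sub_one_eq_one h20⟩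
  have hne1 : orderOf (2 : ZMod l) ≠ 1 := by
    intro h1
    rw [orderOf_eq_one_iff] at h1
    have h2 : (1 : ZMod l) = 0 := by linear_combination h1
    exact one_ne_zero h2
  have h2 : orderOf (2 : ZMod l) = 2 := by omega
  refine ⟨?_, by omega⟩
  have h3 : (2 : ZMod l) ^ 2 = 1 := by
    rw [← h2]
    exact pow_orderOf_eq_one _
  have h4 : ((3 : ℕ) : ZMod l) = 0 := by
    push_cast
    linear_combination h3
  rw [ZMod.natCast_eq_zero_iff] at h4
  exact (Nat.prime_dvd_prime_iff_eq hl Nat.prime_three).1 h4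

/-- the square of a nonconstant polynomial does not divide W -/
theorem sq_not (N : ℕ) (hN : Odd N) (u : (ZMod 2)[X]) (hu : u * u ∣ (1 + X) ^ N + X ^ N) :
    u.natDegree = 0 := by
  obtain ⟨M, rfl⟩ : ∃ M, N = M + 1 := ⟨N - 1, by have := hN.pos; omega⟩
  obtain ⟨k, hk⟩ := hu
  have hNc : ((M + 1 : ℕ) : (ZMod 2)[X]) = 1 := by
    obtain ⟨m, hm⟩ := hN
    rw [hm]
    push_cast
    have h2 : (2 : (ZMod 2)[X]) = 0 := by
      have : (2 : (ZMod 2)[X]) = C 2 := rfl
      rw [this]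
      have : (2 : ZMod 2) = 0 := rfl
      rw [this, C_0]
    rw [h2]
    ring
  have hW' : derivative ((1 + X) ^ (M + 1) + X ^ (M + 1) : (ZMod 2)[X]) =
      (1 + X) ^ M + X ^ M := by
    rw [derivative_add, derivative_pow_succ, derivative_X_pow_succ]
    have h1 : derivative (1 + X : (ZMod 2)[X]) = 1 := by simp
    rw [h1]
    have hC : (C (((M : ℕ) : ZMod 2) + 1) : (ZMod 2)[X]) = 1 := by
      rw [← hNc]
      simp
    rw [hC]
    ring
  have h1 : u ∣ (1 + X) ^ M + X ^ M := by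
    rw [← hW', hk, derivative_mul, derivative_mul]
    exact ⟨derivative u * k + derivative u * k + u * derivative k, by ring⟩
  have h2 : (2 : (ZMod 2)[X]) = 0 := by
    have : (2 : (ZMod 2)[X]) = C 2 := rfl
    rw [this]
    have : (2 : ZMod 2) = 0 := rfl
    rw [this, C_0]
  have h3 : u ∣ (1 + X) ^ (M + 1) + X ^ (M + 1) := ⟨u * k, by rw [hk]; ring⟩
  have h4 : u ∣ X ^ M := by
    have h5 : (X ^ M : (ZMod 2)[X]) = (1 + X) * ((1 + X) ^ M + X ^ M) -
        ((1 + X) ^ (M + 1) + X ^ (M + 1)) := by ring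
    rw [h5]
    exact dvd_sub (h1.mul_left _) h3
  have h6 : u ∣ (1 + X) ^ M := by
    have h7 : ((1 + X) ^ M : (ZMod 2)[X]) = ((1 + X) ^ M + X ^ M) - X ^ M := by ring
    rw [h7]
    exact dvd_sub h1 h4
  have hcop : IsCoprime (X ^ M : (ZMod 2)[X]) ((1 + X) ^ M) :=
    IsCoprime.pow ⟨-1, 1, by ring⟩
  exact natDegree_eq_zero_of_isUnit (hcop.isUnit_of_dvd' h4 h6)

/-- a quadratic divisor of W is X ^ 2 + X + 1 -/
theorem quad_eq (N : ℕ) (hN : Odd N) (u : (ZMod 2)[X]) (hu : u ∣ (1 + X) ^ N + X ^ N)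
    (hd : u.natDegree = 2) : u = X ^ 2 + X + 1 := by
  have hN0 : N ≠ 0 := hN.pos.ne'
  obtain ⟨k, hk⟩ := hu
  have h0 : u.eval 0 ≠ 0 := by
    intro h
    have h1 := congrArg (eval 0) hk
    rw [eval_mul, h, zero_mul] at h1
    simp [hN0] at h1
  have h1 : u.eval 1 ≠ 0 := by
    intro h
    have h1 := congrArg (eval 1) hk
    rw [eval_mul, h, zero_mul] at h1
    have h2 : (1 + 1 : ZMod 2) = 0 := rfl
    simp [hN0, h2] at h1
  have hq : u = C (u.coeff 2) * X ^ 2 + C (u.coeff 1) * X + C (u.coeff 0) :=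
    eq_quadratic_of_degree_le_two (by exact_mod_cast degree_le_of_natDegree_le hd.le)
  have h2 : u.coeff 2 ≠ 0 := by
    have h3 : u ≠ 0 := by
      rintro rfl
      simp at hd
    have h4 := leadingCoeff_ne_zero.2 h3
    rwa [leadingCoeff, hd] at h4
  have key : ∀ a b c : ZMod 2, a ≠ 0 → c ≠ 0 → a + b + c ≠ 0 → a = 1 ∧ b = 1 ∧ c = 1 := by
    decide
  obtain ⟨ha, hb, hc⟩ := key (u.coeff 2) (u.coeff 1) (u.coeff 0) h2 (by
    rw [hq] at h0
    simpa using h0) (by
    rw [hq] at h1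
    simpa using h1)
  rw [hq, ha, hb, hc]
  simp

theorem s_QUA (hM : S_MTP) : S_QUA := by
  intro n hn ho g hg hgR hd
  have hoN : Odd (n - 2) := by
    obtain ⟨m, rfl⟩ := ho
    exact ⟨m - 1, by omega⟩
  obtain ⟨l, hl, hln, hlo⟩ := factor_degree n hn ho g hgR (by omega)
  rw [hd] at hlo
  obtain ⟨hl3, -⟩ := prime_three (n - 2) l hoN hl hln hlo
  refine ⟨by rw [hl3] at hln; omega, ?_⟩
  have hirr : Irreducible g := by
    rw [hg.irreducible_iff_natDegree']
    refine ⟨by rintro rfl; simp at hd, ?_⟩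
    intro f1 f2 hf1 hf2 hf hmem
    rw [Finset.mem_Ioc, hd] at hmem
    have hf2d : f2.natDegree = 1 := by omega
    obtain ⟨l', hl', hln', hlo'⟩ := factor_degree n hn ho f2
      ((Dvd.intro_left f1 hf).trans hgR) (by omega)
    rw [hf2d] at hlo'
    exact (prime_three (n - 2) l' hoN hl' hln' (by omega)).2 hlo'
  set g' : ℚ[X] := g.comp (1 - X) with hg'
  obtain ⟨k, hk⟩ := hgR
  have hg'R : g' ∣ Rn n := by
    refine ⟨k.comp (1 - X), ?_⟩
    rw [hg', ← mul_comp, ← hk, Rn_symm _ (by omega) ho]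
  have hX : (1 - X : ℚ[X]).natDegree = 1 := by
    rw [show (1 - X : ℚ[X]) = -(X - C 1) by rw [C_1]; ring, natDegree_neg, natDegree_X_sub_C]
  have hXl : (1 - X : ℚ[X]).leadingCoeff = -1 := by
    rw [show (1 - X : ℚ[X]) = -(X - C 1) by rw [C_1]; ring, leadingCoeff_neg,
      leadingCoeff_X_sub_C]
  have hg'd : g'.natDegree = 2 := by
    rw [hg', natDegree_comp, hX, hd]
  have hg'm : g'.Monic := by
    rw [Monic, hg', leadingCoeff_comp (by rw [hX]; norm_num), hXl, hd, hg.leadingCoeff]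
    norm_num
  by_cases hdv : g ∣ g'
  · exact eq_of_monic_of_dvd_of_natDegree_le hg hg'm hdv (by rw [hd, hg'd])
  · exfalso
    have hcop : IsCoprime g g' := (hirr.coprime_iff_not_dvd).2 hdv
    have hprod : g * g' ∣ Rn n := hcop.mul_dvd ⟨k, hk⟩ hg'R
    obtain ⟨u, v, huv, hu, hv⟩ := hM n hn ho g g' hg hg'm hprod
    rw [hd] at hu
    rw [hg'd] at hv
    have h1 := quad_eq (n - 2) hoN u ((Dvd.intro v rfl).trans huv) hu
    have h2 := quad_eq (n - 2) hoN v ((Dvd.intro_left u rfl).trans huv) hv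
    rw [h2, ← h1] at huv
    have h3 := sq_not (n - 2) hoN u huv
    omega

end Pool.Agent.L7h93.BO
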